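import Pool.Agent.N557.BP.Fin

/-!
# Billiards in almost every convex polygon: invariant functions which are continuous in the position

Let no angle of the convex polygon `P` be a rational multiple of `π`; this holds for almost every
polygon. Let `f` be a measurable function of the state (position, direction) which is invariant under
the billiard flow. Suppose that for almost every direction `θ` the slice `f (·, θ)` agrees almost
everywhere with a function which is continuous on the open polygon. Then `f` is constant almost
everywhere. Nothing is assumed about the dependence on the direction, and nothing about the behaviour
at the boundary or at the vertices.

Proof. In almost every direction the slice has limits at the vertices, and by the ergodicity of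
irrational rotations the limit at the `i`-th vertex is a constant `c i` for almost every direction.
In almost every direction every open beam of parallel orbits contains orbits which pass arbitrarily
close to one vertex in the same unfolded copy of the polygon; the first such vertex shows that the
continuous slice takes only the finitely many values `c i`. So it is constant, and equal to each
`c i`.
-/

set_option autoImplicit false

namespace Pool.Agent.Results.MP_7bc51d_an.ContinuousSlices

open Complex Set MeasureTheory Pool.Agent.W780.PG Pool.Agent.W780.BB Pool.Agent.TH103.BL
  Pool.Agent.N557.BP

open scoped Real

/-- Invariant functions which are continuous in the position, for almost every direction, are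
constant almost everywhere if all angles of the polygon are irrational multiples of `π`. -/
theorem result (n : ℕ) :
    (∀ᵐ p : Fin (n + 3) → ℂ, IsConvexPolygon p → ∀ i, Irrational (ang p i / π)) ∧
    ∀ p : Fin (n + 3) → ℂ, IsConvexPolygon p → (∀ i, Irrational (ang p i / π)) →
      ∀ f : ℂ × ℝ → ℝ, Measurable f → IsInvariantFun p f → OpenSlices p f →
        ∃ c : ℝ, ∀ᵐ x : ℂ × ℝ, x.1 ∈ region p → f x = c :=
  ⟨ae_irrational n, final_open n⟩

end Pool.Agent.Results.MP_7bc51d_an.ContinuousSlices
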