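import Pool.Agent.N440.LB.All

set_option autoImplicit false

/-!
# Billiards in convex polygons: invariant functions are determined by their means over the sides

Let `P` be a convex polygon and `f` a bounded measurable function of the state (position,
direction) which is invariant under the billiard flow. If for every side and almost every direction
of arrival the mean of `f` over the states arriving at this side is zero, then `f` is zero almost
everywhere. So invariant functions are determined by their side means, and an invariant set is null
or conull as soon as the part of each side at which the arriving states belong to it depends neither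
on the side nor on the direction (Lambert's law). Two sides may be omitted if the angle between them
is not a rational multiple of `π`; so for an irrational triangle one side is enough.
-/

namespace Pool.Agent.Results.MP_7bc51d_an.SideMeans

open Pool.Agent.W780.PG Pool.Agent.W780.BB Pool.Agent.TH103.BL Pool.Agent.N440.LB MeasureTheory

open scoped Real

theorem result {n : ℕ} {p : Fin (n + 3) → ℂ} (hp : IsConvexPolygon p) (E : Set (Fin (n + 3)))
    (hE : E = ∅ ∨ ∃ i j, E = {i, j} ∧ Irrational ((tau p i - tau p j) / π)) :
    (∀ f : ℂ × ℝ → ℝ, Measurable f → (∃ C : ℝ, ∀ x, |f x| ≤ C) → IsInvariantFun p f →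
      (∀ l, l ∉ E → SideMean p f l 0) → ∀ᵐ x : ℂ × ℝ, x.1 ∈ region p → f x = 0) ∧
    (∀ A : Set (ℂ × ℝ), MeasurableSet A → IsInvariant p A → ∀ c : ℝ,
      (∀ l, l ∉ E → ∀ᵐ θ : ℝ, Real.sin (θ - tau p l) < 0 →
        volume.real (arr p A l θ) = c) → IsTrivial p A) :=
  ⟨fun _ hf hb hI hM => funs parts hp hE hf hb hI hM,
    fun _ hA hI _ hM => sets parts hp hE hA hI hM⟩

end Pool.Agent.Results.MP_7bc51d_an.SideMeans
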