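import Pool.Agent.N601.TE.Fin

set_option autoImplicit false

/-!
# Torus extensions of the billiard in a convex polygon: ergodicity in the class of sets of finite
directional perimeter

Let `P` be a convex polygon, `v` a vector of `ℝ ^ d` and `g i` an element of the torus `(ℝ / ℤ) ^ d` for
each side `i` of `P`. In the torus extension of the billiard flow a state is a pair `(x, u)`, `x` a state
(position, direction) of the billiard and `u` a point of the torus; during free motion `u` moves with the
velocity `v`, and at a reflection in side `i` it jumps by `g i`. So `u` records, modulo one, the time and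
the numbers of the reflections in the sides, with arbitrary weights.

We consider measurable sets `A` which are invariant under this flow and which have finite directional
perimeter: turning all directions by an angle `h` changes `A` by a set of measure `O(h)` (if all
`g i` have order at most two it suffices that the measure is `o(h log (1 / h))` along a sequence
`h → 0`).

* If some angle of `P` is not a rational multiple of `π` then `A` is, up to a null set, of the form
  `(phase space) × B`, where `B` is invariant, up to null sets, under the translations by `g i` and by
  all real multiples of `v`.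
* All such sets `A` are null or conull if and only if some angle of `P` is not a rational multiple of
  `π` and there is no nonzero integer vector `k` with `⟨k, v⟩ = 0` and `⟨k, g i⟩ = 0` in `ℝ / ℤ` for all
  sides `i`.

The first condition holds for almost every polygon. For `d = 0` this is the theorem on the billiard flow
of the starting results `FinitePerimeterErgodicity` and `SlowPerimeter`. Proof: the Fourier coefficients
of the fibres of `A` are eigenfunctions of the billiard in the sense of `NoEigenfunctions`; the theorem
of the library `Pool/Agent/TH578/BE` applies to each of them.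
-/

namespace Pool.Agent.Results.MP_7bc51d_an.TorusExtensions

open Pool.Agent.W780.PG Pool.Agent.W780.BB MeasureTheory Pool.Agent.N601.TE

open scoped Real

theorem result {n d : ℕ} {p : Fin (n + 3) → ℂ} (hp : IsConvexPolygon p) (v : Fin d → ℝ)
    (g : Fin (n + 3) → Tor d) :
    ((∃ i, Irrational (ang p i / π)) → ∀ A : Set ((ℂ × ℝ) × Tor d), MeasurableSet A →
      IsInvariantExt p v g A → InClass p g A →
      ∃ B : Set (Tor d), MeasurableSet B ∧
        vol d {x | x.1 ∈ phase p ∧ ¬ (x ∈ A ↔ x.2 ∈ B)} = 0 ∧
        (∀ s : ℝ, haar d {u | ¬ (u ∈ B ↔ u + drift v s ∈ B)} = 0) ∧
        ∀ i, haar d {u | ¬ (u ∈ B ↔ u + g i ∈ B)} = 0) ∧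
    ((∀ A : Set ((ℂ × ℝ) × Tor d), MeasurableSet A → IsInvariantExt p v g A → InClass p g A →
        IsTrivialExt p A) ↔
      (∃ i, Irrational (ang p i / π)) ∧
        ∀ k : Fin d → ℤ, k ≠ 0 → ¬ (∑ j, (k j : ℝ) * v j = 0 ∧ ∀ i, ∑ j, k j • g i j = 0)) :=
  ⟨fun h _ h1 h2 h3 => structure_inv hp h h1 h2 h3, criterion hp v g⟩

end Pool.Agent.Results.MP_7bc51d_an.TorusExtensions
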