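import Pool.Agent.N440.LB.All2

set_option autoImplicit false

/-!
# Billiards in convex polygons with at most two angles which are not right

For right triangles, quadrilaterals with two right angles and pentagons with three right angles:
every measurable function of the state (position, direction) which is invariant under the billiard
flow takes the same value at almost every state and at the state with the opposite velocity.
-/

namespace Pool.Agent.Results.MP_7bc51d_an.VelocityReversal

open Pool.Agent.W780.PG Pool.Agent.W780.BB Pool.Agent.TH103.BL MeasureTheory

open scoped Real

theorem result {n : ℕ} {p : Fin (n + 3) → ℂ} (hp : IsConvexPolygon p) {a b : Fin (n + 3)}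
    (hr : ∀ i, i ≠ a → i ≠ b → ang p i = π / 2) :
    ∀ f : ℂ × ℝ → ℝ, Measurable f → IsInvariantFun p f →
      ∀ᵐ x : ℂ × ℝ, x.1 ∈ region p → f (x.1, x.2 + π) = f x :=
  fun _ hf hI => Pool.Agent.N440.LB.even_all hp hr hf hI

end Pool.Agent.Results.MP_7bc51d_an.VelocityReversal
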